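import Pool.Agent.H47.PL.Targets

/-!
# MP_c62aed_lc, row NC1 of the board `pln_modules` (helper42)

A derivation of a line which is false in a state is long.
-/

set_option autoImplicit false

namespace Pool.Agent.H42.PL

open Finset Pool.Agent.H97.RK Pool.Agent.H47.PL

theorem pf_NC1 (hRND : T_RND) (hCN1 : T_CN1) : T_NC1 := by
  classical
  intro n k m F j t d e s₀ hP hd S line rule hD R h r hr hpath y A W J hSt hF hv
  have hW : W.card ≤ e := by
    have h1 := hSt.crd
    have h2 := Nat.mul_le_mul_left j hSt.lt.le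
    exact h1.trans (h2.trans hP.je)
  refine hCN1 n S (A.card + e + h + 3 * d) (2 * t * (n * R / d + 1))
    (fun i => (line i).filter fun l => l.1 ∉ A ∪ W) fun x => ?_
  obtain ⟨i, hi, y', hy', hn, hdst⟩ := hRND n k m F j t d e s₀ hP hd S line rule hD R h r hr
    hpath y A W J hSt hF hv (fun u => if u ∈ A ∪ W then y u else x u)
    (fun u hu => if_pos hu)
  refine ⟨i, hi, fun u => if u ∈ A ∪ W then x u else y' u, ?_, ?_, ?_⟩
  · intro l hl
    rw [mem_filter] at hl
    show (if l.1 ∈ A ∪ W then x l.1 else y' l.1) ≠ l.2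
    rw [if_neg hl.2]
    exact hy' l hl.1
  · have h1 : A ∪ vs (line i) ⊆ (A ∪ W) ∪ vs ((line i).filter fun l => l.1 ∉ A ∪ W) := by
      intro u hu
      rw [mem_union] at hu ⊢
      by_cases hu2 : u ∈ A ∪ W
      · exact Or.inl hu2
      · refine Or.inr ?_
        rcases hu with hu | hu
        · exact absurd (mem_union_left _ hu) hu2
        · unfold vs at hu ⊢
          obtain ⟨l, hl, rfl⟩ := mem_image.1 hu
          exact mem_image_of_mem _ (mem_filter.2 ⟨hl, hu2⟩)
    have h2 := card_le_card h1
    have h3 := card_union_le (A ∪ W) (vs ((line i).filter fun l => l.1 ∉ A ∪ W))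
    have h4 := card_union_le A W
    show n ≤ (vs ((line i).filter fun l => l.1 ∉ A ∪ W)).card + (A.card + e + h + 3 * d)
    omega
  · refine le_trans ?_ hdst
    unfold dst
    refine card_le_card fun u hu => ?_
    rw [mem_filter] at hu ⊢
    refine ⟨mem_univ u, ?_⟩
    have h1 : (if u ∈ A ∪ W then x u else y' u) ≠ x u := hu.2
    show y' u ≠ (if u ∈ A ∪ W then y u else x u)
    by_cases hu2 : u ∈ A ∪ W
    · rw [if_pos hu2] at h1
      exact absurd rfl h1
    · rw [if_neg hu2] at h1
      rw [if_neg hu2]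
      exact h1

end Pool.Agent.H42.PL
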