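import Pool.Agent.H47.PL.Targets

/-!
# MP_c62aed_lc, row STD of the board `pln_modules` (helper42; after row STP of helper25)

One step of the path, for derivations.
-/

set_option autoImplicit false

namespace Pool.Agent.H42.PL

open Finset Pool.Agent.H97.RK Pool.Agent.H47.PL

private theorem dst_self' {n : ℕ} (y : Fin n → Bool) : dst y y = 0 := by
  unfold dst
  simp

private theorem vs_mono' {n : ℕ} {C D : Clause n} (h : C ⊆ D) : vs C ⊆ vs D :=
  image_subset_image h

/-- the step to a premise of a resolution -/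
private theorem step' {n k m : ℕ} (hASK : T_ASK) (F : Fml n k m) {j t d e s₀ : ℕ}
    (hP : Par F j t d e s₀) (line : ℕ → Clause n) (rule : ℕ → Rule n)
    (i : ℕ) (y : Fin n → Bool) (A W : Finset (Fin n)) (J : Finset (Fin m))
    (hSt : St F j t y A W J) (hF : Falsified (line i) y) (hv : vs (line i) ⊆ A)
    (hA : A.card + 1 + e + d ≤ n) (x : Fin n) (a : ℕ) (s : Bool) (hai : a < i)
    (hs : y x ≠ s) (hl : line a ⊆ insert (x, s) (line i))
    (hp : ∀ r l, Path rule r i l → Path rule r a (x :: l)) :
    ∃ (i' : ℕ) (y' : Fin n → Bool) (A' W' : Finset (Fin n)) (J' : Finset (Fin m))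
      (q : List (Fin n)), i' < i ∧ St F j t y' A' W' J' ∧ Falsified (line i') y' ∧
      vs (line i') ⊆ A' ∧ A' = A ∪ q.toFinset ∧ A'.card ≤ A.card + 1 ∧
      (∀ u ∈ A, y' u = y u) ∧
      dst y' y + J.card ≤ J'.card ∧ ∀ r l, Path rule r i l → Path rule r i' (q ++ l) := by
  have hFa : Falsified (line a) y := by
    intro l hla
    rcases mem_insert.1 (hl hla) with h | h
    · rw [h]
      exact hs
    · exact hF l h
  have hva : vs (line a) ⊆ insert x A := by
    intro u hu
    obtain ⟨l, hla, rfl⟩ := mem_image.1 hu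
    rcases mem_insert.1 (hl hla) with h | h
    · rw [h]
      exact mem_insert_self _ _
    · exact mem_insert_of_mem (hv (mem_image_of_mem _ h))
  have hins : insert x A = A ∪ [x].toFinset := by
    ext u
    simp only [mem_insert, List.toFinset_cons, List.toFinset_nil, insert_empty_eq, mem_union,
      mem_singleton]
    tauto
  by_cases hx : x ∈ A
  · refine ⟨a, y, A, W, J, [x], hai, hSt, hFa, ?_, ?_, Nat.le_succ _, fun _ _ => rfl, ?_,
      fun r l h => hp r l h⟩
    · rwa [insert_eq_of_mem hx] at hva
    · rwa [insert_eq_of_mem hx] at hins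
    · rw [dst_self', zero_add]
  · obtain ⟨y', W', J', h1, h2, h3⟩ := hASK n k m F j t d e s₀ hP y A W J x hSt hx hA
    refine ⟨a, y', insert x A, W', J', [x], hai, h1, ?_, hva, hins, ?_,
      fun u hu => h2 u (mem_insert_of_mem hu), h3, fun r l h => hp r l h⟩
    · intro l hla
      rw [h2 l.1 (hva (mem_image_of_mem _ hla))]
      exact hFa l hla
    · exact card_insert_le _ _

theorem pf_STD (hASK : T_ASK) : T_STD := by
  intro n k m F j t d e s₀ hP S line rule hR i y A W J hi hSt hF hv hA
  have hC := hR i hi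
  rcases hr : rule i with _ | a | ⟨x, a, b⟩
  · exfalso
    rw [hr] at hC
    obtain ⟨c, hc⟩ := hC
    have h1 : ∀ p, F c p ∈ line i := fun p => hc (mem_image_of_mem _ (mem_univ p))
    have h2 : ∀ p, (F c p).1 ∈ A := fun p => hv (mem_image_of_mem _ (h1 p))
    have h3 : ∀ p, y (F c p).1 ≠ (F c p).2 := fun p => hF _ (h1 p)
    by_cases hcJ : c ∈ J
    · obtain ⟨p, -, hp⟩ := hSt.sat c hcJ
      exact h3 p hp
    · have h4 := hSt.out c hcJ fun p _ => h3 p
      have h5 : out F c (A ∪ W) = 0 := by
        unfold out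
        rw [card_eq_zero, filter_eq_empty_iff]
        intro p _ h
        exact h (mem_union_left _ (h2 p))
      omega
  · rw [hr] at hC
    obtain ⟨hai, hl⟩ := hC
    refine ⟨a, y, A, W, J, [], hai, hSt, fun l h => hF l (hl h), (vs_mono' hl).trans hv, ?_,
      Nat.le_succ _, fun _ _ => rfl, ?_, fun r l h => Path.weak h hr⟩
    · rw [List.toFinset_nil, union_empty]
    · rw [dst_self', zero_add]
  · rw [hr] at hC
    obtain ⟨hai, hbi, hla, hlb⟩ := hC
    by_cases hyx : y x = true
    · exact step' hASK F hP line rule i y A W J hSt hF hv hA x b false hbi (by rw [hyx]; simp)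
        hlb fun r l h => Path.right h hr
    · exact step' hASK F hP line rule i y A W J hSt hF hv hA x a true hai hyx
        hla fun r l h => Path.left h hr

end Pool.Agent.H42.PL
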